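import Mathlib

/-!
# Dense proximality for the endograph metric does not pass to the hyperspace

A metric space `X` and a continuous (even injective) map `f : X → X` such that the Zadeh
extension of `f` has a dense proximal relation on the normal fuzzy sets with the endograph metric,
while the induced map on the nonempty compact sets with the Hausdorff metric does not have a
dense proximal relation.
-/

namespace Pool.Agent.Results.MP_24ecc9_an.EndographProximal

open Set Filter Topology Metric BoundedContinuousFunction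

/-! ### The definitions of the problem -/

/-- Normal fuzzy sets: upper semicontinuous `u : X → [0,1]` which take the value `1` and have a
compact support. -/
structure Fuzzy {X : Type*} [MetricSpace X] (u : X → ℝ) : Prop where
  nonneg : ∀ x, 0 ≤ u x
  le_one : ∀ x, u x ≤ 1
  usc : UpperSemicontinuous u
  normal : ∃ x, u x = 1
  cpt : IsCompact (closure {x | 0 < u x})

/-- The endograph `{(x, t) ∈ X × [0,1] : t ≤ u x}`. -/
def endo {X : Type*} (u : X → ℝ) : Set (X × ℝ) := {p | 0 ≤ p.2 ∧ p.2 ≤ 1 ∧ p.2 ≤ u p.1}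

/-- The endograph metric: the Hausdorff distance of the endographs (the metric of the product
`X × ℝ` is the maximum metric). -/
noncomputable def dE {X : Type*} [MetricSpace X] (u v : X → ℝ) : ℝ :=
  hausdorffDist (endo u) (endo v)

/-- The Zadeh extension: `zadeh f u y = sup {u x : f x = y}` (with `sup ∅ = 0`). -/
noncomputable def zadeh {X : Type*} (f : X → X) (u : X → ℝ) : X → ℝ :=
  fun y => sSup (u '' {x | f x = y})

/-- The fuzzy extension has a dense proximal relation for the endograph metric. -/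
def DenseProximalFuzzy {X : Type*} [MetricSpace X] (f : X → X) : Prop :=
  ∀ u v : X → ℝ, Fuzzy u → Fuzzy v → ∀ r : ℝ, 0 < r → ∃ u' v' : X → ℝ, Fuzzy u' ∧ Fuzzy v' ∧
    dE u u' < r ∧ dE v v' < r ∧
    ∀ η : ℝ, 0 < η → ∀ N : ℕ, ∃ n ≥ N, dE ((zadeh f)^[n] u') ((zadeh f)^[n] v') < η

/-- The hyperspace extension has a dense proximal relation for the Hausdorff metric. -/
def DenseProximalCompact {X : Type*} [MetricSpace X] (f : X → X) : Prop :=
  ∀ K L : Set X, IsCompact K → K.Nonempty → IsCompact L → L.Nonempty → ∀ r : ℝ, 0 < r →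
    ∃ K' L' : Set X, IsCompact K' ∧ K'.Nonempty ∧ IsCompact L' ∧ L'.Nonempty ∧
    hausdorffDist K K' < r ∧ hausdorffDist L L' < r ∧
    ∀ η : ℝ, 0 < η → ∀ N : ℕ, ∃ n ≥ N,
      hausdorffDist ((fun M : Set X => f '' M)^[n] K') ((fun M : Set X => f '' M)^[n] L') < η

/-! ### The space -/

/-- The points of the space: a slice `(n, σ)` and a finitely supported sequence with values in
`{0} ∪ [1,2]`. -/
@[ext] structure Pt where
  n : ℕ
  σ : Bool
  x : ℕ →₀ ℝ
  hx : ∀ j, x j = 0 ∨ (1 ≤ x j ∧ x j ≤ 2)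

noncomputable section

def kap (n : ℕ) : ℕ := Nat.log 2 (n + 1)
def jj (k : ℕ) : ℕ := (Nat.unpair k).1
def s (k : ℕ) : ℝ := (1 / 2) ^ (k + 1)
def e (k : ℕ) : ℝ := (1 / 4) ^ k
def sg (p : Pt) : ℝ := if p.σ then 1 else 0

lemma s_pos (k : ℕ) : 0 < s k := by unfold s; positivity
lemma e_pos (k : ℕ) : 0 < e k := by unfold e; positivity
lemma s_le (k : ℕ) : s k ≤ 1 / 2 := by
  unfold s
  rw [pow_succ]
  have : ((1 : ℝ) / 2) ^ k ≤ 1 := pow_le_one₀ (by norm_num) (by norm_num)
  linarith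

lemma Pt.nonneg (p : Pt) (j : ℕ) : 0 ≤ p.x j := by
  rcases p.hx j with h | h
  · exact h.ge
  · linarith [h.1]

lemma Pt.le_two (p : Pt) (j : ℕ) : p.x j ≤ 2 := by
  rcases p.hx j with h | h
  · rw [h]; norm_num
  · exact h.2

/-- The weighted sequence. -/
def til (p : Pt) : ℕ →ᵇ ℝ :=
  BoundedContinuousFunction.ofNormedAddCommGroupDiscrete (fun j => (1 / 2) ^ j * p.x j) 2 (by
    intro j
    have h1 : ((1 : ℝ) / 2) ^ j ≤ 1 := pow_le_one₀ (by norm_num) (by norm_num)
    have h2 : 0 ≤ ((1 : ℝ) / 2) ^ j := by positivity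
    rw [Real.norm_eq_abs, abs_of_nonneg (mul_nonneg h2 (p.nonneg j))]
    nlinarith [p.nonneg j, p.le_two j])

lemma til_apply (p : Pt) (j : ℕ) : til p j = (1 / 2) ^ j * p.x j := rfl

def c1 (p : Pt) : ℝ := (kap p.n : ℝ)
def c2 (p : Pt) : ℝ := 10 / s (kap p.n) * (p.x (jj (kap p.n)) + sg p * s (kap p.n))
def c3 (p : Pt) : ℝ := e (kap p.n) * (p.n : ℝ)
def c4 (p : Pt) : ℝ := e (kap p.n) * sg p
def c5 (p : Pt) : ℕ →ᵇ ℝ := e (kap p.n) • til p

def emb (p : Pt) : ℝ × ℝ × ℝ × ℝ × (ℕ →ᵇ ℝ) := (c1 p, c2 p, c3 p, c4 p, c5 p)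

lemma sg_inj {p q : Pt} (h : sg p = sg q) : p.σ = q.σ := by
  unfold sg at h
  cases hp : p.σ <;> cases hq : q.σ <;> simp [hp, hq] at h ⊢

lemma emb_injective : Function.Injective emb := by
  intro p q h
  simp only [emb, Prod.mk.injEq] at h
  obtain ⟨h1, -, h3, h4, h5⟩ := h
  have hk : kap p.n = kap q.n := by
    unfold c1 at h1; exact_mod_cast h1
  have he := e_pos (kap q.n)
  unfold c3 at h3; unfold c4 at h4; unfold c5 at h5
  rw [hk] at h3 h4 h5
  have hn : p.n = q.n := by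
    have := mul_left_cancel₀ he.ne' h3
    exact_mod_cast this
  have hs : p.σ = q.σ := sg_inj (mul_left_cancel₀ he.ne' h4)
  have ht : til p = til q := by
    have := congrArg (fun g => (e (kap q.n))⁻¹ • g) h5
    simpa [smul_smul, inv_mul_cancel₀ he.ne'] using this
  have hx : p.x = q.x := by
    ext j
    have := congrArg (fun g : ℕ →ᵇ ℝ => g j) ht
    simp only [til_apply] at this
    exact mul_left_cancel₀ (by positivity) this
  ext1
  · exact hn
  · exact hs
  · exact hx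

instance : MetricSpace Pt := MetricSpace.induced emb emb_injective inferInstance

lemma dist_emb (p q : Pt) : dist p q = dist (emb p) (emb q) := rfl

lemma dist_le_of {p q : Pt} {r : ℝ} (h1 : |c1 p - c1 q| ≤ r) (h2 : |c2 p - c2 q| ≤ r)
    (h3 : |c3 p - c3 q| ≤ r) (h4 : |c4 p - c4 q| ≤ r) (h5 : dist (c5 p) (c5 q) ≤ r) :
    dist p q ≤ r := by
  rw [dist_emb]
  simp only [emb, Prod.dist_eq, Real.dist_eq]
  simp only [max_le_iff]
  exact ⟨h1, h2, h3, h4, h5⟩

lemma le_dist (p q : Pt) : |c1 p - c1 q| ≤ dist p q ∧ |c2 p - c2 q| ≤ dist p q ∧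
    |c3 p - c3 q| ≤ dist p q ∧ |c4 p - c4 q| ≤ dist p q ∧ dist (c5 p) (c5 q) ≤ dist p q := by
  have : dist (emb p) (emb q) ≤ dist p q := (dist_emb p q).ge
  simp only [emb, Prod.dist_eq, Real.dist_eq] at this
  simp only [max_le_iff] at this
  exact this

/-- Points at distance less than one have the same `κ`. -/
lemma kap_eq {p q : Pt} (h : dist p q < 1) : kap p.n = kap q.n := by
  have := (le_dist p q).1.trans_lt h
  unfold c1 at this
  have h2 : |((kap p.n : ℤ) - (kap q.n : ℤ) : ℤ)| < 1 := by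
    have : ((|((kap p.n : ℤ) - (kap q.n : ℤ) : ℤ)| : ℤ) : ℝ) < 1 := by push_cast; exact this
    exact_mod_cast this
  have h3 := Int.abs_lt_one_iff.mp h2
  omega

/-- Close points lie in the same slice. -/
lemma slice_eq {p q : Pt} (h : dist p q < e (kap p.n)) : p.n = q.n ∧ p.σ = q.σ := by
  have he1 : e (kap p.n) ≤ 1 := by
    unfold e; exact pow_le_one₀ (by norm_num) (by norm_num)
  have hk := kap_eq (h.trans_le he1)
  have he := e_pos (kap p.n)
  have h3 := (le_dist p q).2.2.1.trans_lt h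
  have h4 := (le_dist p q).2.2.2.1.trans_lt h
  unfold c3 at h3
  unfold c4 at h4
  rw [← hk, ← mul_sub, abs_mul, abs_of_pos he] at h3 h4
  have h3' : |(p.n : ℝ) - q.n| < 1 := by
    by_contra hc
    push Not at hc
    nlinarith
  have h4' : |sg p - sg q| < 1 := by
    by_contra hc
    push Not at hc
    nlinarith
  constructor
  · have h2 : |((p.n : ℤ) - (q.n : ℤ) : ℤ)| < 1 := by
      have : ((|((p.n : ℤ) - (q.n : ℤ) : ℤ)| : ℤ) : ℝ) < 1 := by push_cast; exact h3'
      exact_mod_cast this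
    have h3 := Int.abs_lt_one_iff.mp h2
    omega
  · unfold sg at h4'
    cases hp : p.σ <;> cases hq : q.σ <;> simp [hp, hq] at h4' ⊢

lemma dist_smul_til (a : ℝ) (g h : ℕ →ᵇ ℝ) : dist (a • g) (a • h) = |a| * dist g h := by
  have h1 : a • g - a • h = a • (g - h) := by ext i; simp [mul_sub]
  rw [dist_eq_norm, h1, norm_smul, dist_eq_norm, Real.norm_eq_abs]

/-- In one slice the distance is at least `ε_κ` times the weighted sup distance. -/
lemma til_le {p q : Pt} (hn : p.n = q.n) : e (kap p.n) * dist (til p) (til q) ≤ dist p q := by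
  have h5 := (le_dist p q).2.2.2.2
  unfold c5 at h5
  rw [← hn, dist_smul_til, abs_of_pos (e_pos _)] at h5
  exact h5

lemma coord_le (p q : Pt) (j : ℕ) : |p.x j - q.x j| ≤ 2 ^ j * dist (til p) (til q) := by
  have h := BoundedContinuousFunction.dist_coe_le_dist (f := til p) (g := til q) j
  rw [til_apply, til_apply, Real.dist_eq, ← mul_sub, abs_mul, abs_of_pos (by positivity)] at h
  have h2 : (2 : ℝ) ^ j * ((1 / 2) ^ j * |p.x j - q.x j|) = |p.x j - q.x j| := by
    rw [← mul_assoc, ← mul_pow]; norm_num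
  rw [← h2]
  exact mul_le_mul_of_nonneg_left h (by positivity)

/-- The Lipschitz constant in a slice. -/
def Lc (k : ℕ) : ℝ := 10 / s k * 2 ^ (jj k) + e k

lemma Lc_pos (k : ℕ) : 0 < Lc k := by
  have := s_pos k
  have := e_pos k
  unfold Lc; positivity

lemma dist_le_til {p q : Pt} (hn : p.n = q.n) (hs : p.σ = q.σ) :
    dist p q ≤ Lc (kap p.n) * dist (til p) (til q) := by
  have hsg : sg p = sg q := by unfold sg; rw [hs]
  have hpos := mul_nonneg (Lc_pos (kap p.n)).le (dist_nonneg (x := til p) (y := til q))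
  have hsp := s_pos (kap p.n)
  have hep := e_pos (kap p.n)
  have hd := dist_nonneg (x := til p) (y := til q)
  apply dist_le_of
  · unfold c1; rw [hn]; simpa [hn] using hpos
  · unfold c2
    rw [← hn, hsg, ← mul_sub, abs_mul, abs_of_pos (by positivity)]
    have := coord_le p q (jj (kap p.n))
    calc 10 / s (kap p.n) * |p.x (jj (kap p.n)) + sg q * s (kap p.n) -
          (q.x (jj (kap p.n)) + sg q * s (kap p.n))|
        = 10 / s (kap p.n) * |p.x (jj (kap p.n)) - q.x (jj (kap p.n))| := by congr 2; ring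
      _ ≤ 10 / s (kap p.n) * (2 ^ (jj (kap p.n)) * dist (til p) (til q)) :=
          mul_le_mul_of_nonneg_left this (by positivity)
      _ ≤ _ := by unfold Lc; nlinarith
  · unfold c3; rw [hn]; simpa [hn] using hpos
  · unfold c4; rw [hn, hsg]; simpa [hn] using hpos
  · unfold c5
    rw [← hn, dist_smul_til, abs_of_pos hep]
    unfold Lc
    have : 0 ≤ 10 / s (kap p.n) * 2 ^ (jj (kap p.n)) * dist (til p) (til q) := by positivity
    nlinarith

/-! ### The map -/

/-- The shift of the slices. -/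
def f (p : Pt) : Pt := ⟨p.n + 1, p.σ, p.x, p.hx⟩

lemma f_iter (m : ℕ) (p : Pt) : f^[m] p = ⟨p.n + m, p.σ, p.x, p.hx⟩ := by
  induction m generalizing p with
  | zero => rfl
  | succ m ih =>
    rw [Function.iterate_succ_apply, ih]
    simp only [f]
    ext1
    · simp only; omega
    · rfl
    · rfl

lemma f_injective : Function.Injective f := by
  intro p q h
  unfold f at h
  rw [Pt.mk.injEq] at h
  ext1
  · omega
  · exact h.2.1
  · exact h.2.2

lemma f_continuous : Continuous f := by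
  rw [Metric.continuous_iff']
  intro p r hr
  have he := e_pos (kap p.n)
  have hL := Lc_pos (kap (p.n + 1))
  set δ : ℝ := min (e (kap p.n)) (r * e (kap p.n) / Lc (kap (p.n + 1))) with hδ
  have hδ0 : 0 < δ := lt_min he (by positivity)
  filter_upwards [Metric.ball_mem_nhds p hδ0] with q hq
  rw [Metric.mem_ball, dist_comm] at hq
  obtain ⟨hn, hs⟩ := slice_eq (hq.trans_le (min_le_left _ _))
  have h1 := til_le hn
  have h2 : dist (f p) (f q) ≤ Lc (kap (p.n + 1)) * dist (til p) (til q) :=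
    dist_le_til (p := f p) (q := f q) (by simp [f, hn]) (by simp [f, hs])
  rw [dist_comm]
  have h3 : dist p q < r * e (kap p.n) / Lc (kap (p.n + 1)) := hq.trans_le (min_le_right _ _)
  rw [lt_div_iff₀ hL] at h3
  have h4 : dist (til p) (til q) * Lc (kap (p.n + 1)) < r := by
    have : e (kap p.n) * (dist (til p) (til q) * Lc (kap (p.n + 1))) < e (kap p.n) * r := by
      nlinarith
    exact lt_of_mul_lt_mul_left this he.le
  linarith

/-! ### Arcs and tents -/

/-- The clamp to `[1,2]`. -/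
def cl (t : ℝ) : ℝ := max 1 (min 2 t)

lemma cl_mem (t : ℝ) : 1 ≤ cl t ∧ cl t ≤ 2 := by
  unfold cl
  exact ⟨le_max_left _ _, max_le (by norm_num) (min_le_left _ _)⟩

lemma cl_eq {t : ℝ} (h : t ∈ Icc (1 : ℝ) 2) : cl t = t := by
  unfold cl
  rw [min_eq_right h.2, max_eq_right h.1]

/-- The point `a` with its `j`-th coordinate replaced by `t` (clamped to `[1,2]`). -/
def arc (j : ℕ) (a : Pt) (t : ℝ) : Pt where
  n := a.n
  σ := a.σ
  x := a.x.update j (cl t)
  hx := by
    intro i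
    by_cases h : i = j
    · subst h
      right
      simpa using cl_mem t
    · simpa [Finsupp.coe_update, Function.update_of_ne h] using a.hx i

lemma arc_x_self (j : ℕ) (a : Pt) {t : ℝ} (h : t ∈ Icc (1 : ℝ) 2) : (arc j a t).x j = t := by
  simp [arc, cl_eq h]

lemma arc_x_ne (j : ℕ) (a : Pt) (t : ℝ) {i : ℕ} (h : i ≠ j) : (arc j a t).x i = a.x i := by
  simp [arc, Finsupp.coe_update, Function.update_of_ne h]

lemma dist_til_le {p q : Pt} {r : ℝ} (hr : 0 ≤ r)
    (h : ∀ i, (1 / 2) ^ i * |p.x i - q.x i| ≤ r) : dist (til p) (til q) ≤ r := by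
  rw [BoundedContinuousFunction.dist_le hr]
  intro i
  rw [til_apply, til_apply, Real.dist_eq, ← mul_sub, abs_mul, abs_of_pos (by positivity)]
  exact h i

lemma pow_half_le (i : ℕ) : ((1 : ℝ) / 2) ^ i ≤ 1 := pow_le_one₀ (by norm_num) (by norm_num)

lemma dist_til_two (p q : Pt) : dist (til p) (til q) ≤ 2 := by
  apply dist_til_le (by norm_num)
  intro i
  have h1 := p.nonneg i
  have h2 := q.nonneg i
  have h3 := p.le_two i
  have h4 := q.le_two i
  have h5 : |p.x i - q.x i| ≤ 2 := by rw [abs_le]; constructor <;> linarith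
  have h6 := pow_half_le i
  have h7 : 0 ≤ ((1 : ℝ) / 2) ^ i := by positivity
  nlinarith [abs_nonneg (p.x i - q.x i)]

lemma arc_lipschitz (j : ℕ) (a : Pt) {t t' : ℝ} (h : t ∈ Icc (1 : ℝ) 2)
    (h' : t' ∈ Icc (1 : ℝ) 2) : dist (arc j a t) (arc j a t') ≤ Lc (kap a.n) * |t - t'| := by
  refine (dist_le_til (p := arc j a t) (q := arc j a t') rfl rfl).trans ?_
  refine mul_le_mul_of_nonneg_left ?_ (Lc_pos _).le
  apply dist_til_le (abs_nonneg _)
  intro i
  by_cases hi : i = j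
  · subst hi
    rw [arc_x_self _ _ h, arc_x_self _ _ h']
    have h6 := pow_half_le i
    nlinarith [abs_nonneg (t - t')]
  · rw [arc_x_ne _ _ _ hi, arc_x_ne _ _ _ hi]
    simp

lemma arc_continuousOn (j : ℕ) (a : Pt) : ContinuousOn (arc j a) (Icc (1 : ℝ) 2) := by
  have : LipschitzOnWith (Lc (kap a.n)).toNNReal (arc j a) (Icc (1 : ℝ) 2) := by
    apply LipschitzOnWith.of_dist_le_mul
    intro t ht t' ht'
    rw [Real.coe_toNNReal _ (Lc_pos _).le, Real.dist_eq]
    exact arc_lipschitz j a ht ht'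
  exact this.continuousOn

/-- The tent function. -/
def ph (t : ℝ) : ℝ := max 0 (1 - 2 * |t - 3 / 2|)

lemma ph_nonneg (t : ℝ) : 0 ≤ ph t := le_max_left _ _
lemma ph_le_one (t : ℝ) : ph t ≤ 1 := by
  unfold ph
  exact max_le (by norm_num) (by linarith [abs_nonneg (t - 3 / 2)])
lemma ph_mid : ph (3 / 2) = 1 := by unfold ph; norm_num
lemma ph_continuous : Continuous ph := by unfold ph; fun_prop
lemma ph_lip (t t' : ℝ) : ph t ≤ ph t' + 2 * |t - t'| := by
  unfold ph
  have h1 : |t' - 3 / 2| ≤ |t - 3 / 2| + |t - t'| := by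
    have := abs_sub_le t' t (3 / 2)
    rw [abs_sub_comm t' t] at this
    linarith
  apply max_le
  · linarith [abs_nonneg (t - t'), le_max_left 0 (1 - 2 * |t' - 3 / 2|)]
  · linarith [le_max_right 0 (1 - 2 * |t' - 3 / 2|)]
lemma ph_small {t : ℝ} (h : t ≤ 1 ∨ 2 ≤ t) : ph t = 0 := by
  unfold ph
  apply max_eq_left
  rcases h with h | h
  · rw [abs_of_nonpos (by linarith)]; linarith
  · rw [abs_of_nonneg (by linarith)]; linarith

/-- The set of the values which define the tent function at `z`. -/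
def vals (j : ℕ) (T : Set (Pt × ℝ)) (z : Pt) : Set ℝ :=
  insert 0 {c | ∃ p ∈ T, ∃ t ∈ Icc (1 : ℝ) 2, arc j p.1 t = z ∧ c = p.2 * ph t}

/-- A finite sum of tents. -/
def tent (j : ℕ) (T : Set (Pt × ℝ)) (z : Pt) : ℝ := sSup (vals j T z)

lemma vals_finite (j : ℕ) {T : Set (Pt × ℝ)} (hT : T.Finite) (z : Pt) : (vals j T z).Finite := by
  apply Set.Finite.insert
  apply (hT.image (fun p => p.2 * ph (z.x j))).subset
  rintro c ⟨p, hp, t, ht, hz, rfl⟩
  refine ⟨p, hp, ?_⟩
  rw [← hz, arc_x_self _ _ ht]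

lemma le_tent_iff (j : ℕ) {T : Set (Pt × ℝ)} (hT : T.Finite) (z : Pt) {c : ℝ} (hc : 0 < c) :
    c ≤ tent j T z ↔ ∃ p ∈ T, ∃ t ∈ Icc (1 : ℝ) 2, arc j p.1 t = z ∧ c ≤ p.2 * ph t := by
  have hne : (vals j T z).Nonempty := ⟨0, mem_insert _ _⟩
  constructor
  · intro h
    have hmem := hne.csSup_mem (vals_finite j hT z)
    rcases hmem with h0 | ⟨p, hp, t, ht, hz, hv⟩
    · exfalso
      unfold tent at h
      rw [h0] at h
      linarith
    · exact ⟨p, hp, t, ht, hz, by rw [← hv]; exact h⟩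
  · rintro ⟨p, hp, t, ht, hz, hv⟩
    refine hv.trans ?_
    exact le_csSup (vals_finite j hT z).bddAbove (mem_insert_of_mem _ ⟨p, hp, t, ht, hz, rfl⟩)

lemma tent_nonneg (j : ℕ) {T : Set (Pt × ℝ)} (hT : T.Finite) (z : Pt) : 0 ≤ tent j T z :=
  le_csSup (vals_finite j hT z).bddAbove (mem_insert _ _)

/-- The level set of one tent. -/
lemma level_compact (j : ℕ) (p : Pt × ℝ) (c : ℝ) :
    IsCompact {z : Pt | ∃ t ∈ Icc (1 : ℝ) 2, arc j p.1 t = z ∧ c ≤ p.2 * ph t} := by
  have h1 : IsCompact (Icc (1 : ℝ) 2 ∩ {t | c ≤ p.2 * ph t}) := by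
    apply isCompact_Icc.inter_right
    exact isClosed_le continuous_const (continuous_const.mul ph_continuous)
  have h2 := h1.image_of_continuousOn ((arc_continuousOn j p.1).mono inter_subset_left)
  convert h2 using 1
  ext z
  constructor
  · rintro ⟨t, ht, hz, hc⟩
    exact ⟨t, ⟨ht, hc⟩, hz⟩
  · rintro ⟨t, ⟨ht, hc⟩, hz⟩
    exact ⟨t, ht, hz, hc⟩

lemma tent_fuzzy (j : ℕ) {T : Set (Pt × ℝ)} (hT : T.Finite)
    (h01 : ∀ p ∈ T, 0 ≤ p.2 ∧ p.2 ≤ 1) (h1 : ∃ p ∈ T, p.2 = 1) : Fuzzy (tent j T) where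
  nonneg := tent_nonneg j hT
  le_one := by
    intro z
    apply csSup_le ⟨0, mem_insert _ _⟩
    rintro c (rfl | ⟨p, hp, t, ht, hz, rfl⟩)
    · norm_num
    · exact mul_le_one₀ (h01 p hp).2 (ph_nonneg t) (ph_le_one t)
  usc := by
    rw [upperSemicontinuous_iff_isClosed_preimage]
    intro c
    rcases le_or_gt c 0 with hc | hc
    · have : tent j T ⁻¹' Ici c = univ := by
        ext z
        simpa using hc.trans (tent_nonneg j hT z)
      rw [this]
      exact isClosed_univ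
    · have : tent j T ⁻¹' Ici c = ⋃ p ∈ T, {z : Pt | ∃ t ∈ Icc (1 : ℝ) 2, arc j p.1 t = z ∧
          c ≤ p.2 * ph t} := by
        ext z
        simp only [mem_preimage, mem_Ici, mem_iUnion]
        rw [le_tent_iff j hT z hc]
        simp
      rw [this]
      exact hT.isClosed_biUnion (fun p _ => (level_compact j p c).isClosed)
  normal := by
    obtain ⟨p, hp, hp1⟩ := h1
    refine ⟨arc j p.1 (3 / 2), le_antisymm ?_ ?_⟩
    · apply csSup_le ⟨0, mem_insert _ _⟩
      rintro c (rfl | ⟨p, hp, t, ht, hz, rfl⟩)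
      · norm_num
      · exact mul_le_one₀ (h01 p hp).2 (ph_nonneg t) (ph_le_one t)
    · rw [le_tent_iff j hT _ one_pos]
      exact ⟨p, hp, 3 / 2, ⟨by norm_num, by norm_num⟩, rfl, by rw [hp1, ph_mid]; norm_num⟩
  cpt := by
    have hc : IsCompact (⋃ p ∈ T, {z : Pt | ∃ t ∈ Icc (1 : ℝ) 2, arc j p.1 t = z ∧
          0 ≤ p.2 * ph t}) := hT.isCompact_biUnion (fun p _ => level_compact j p 0)
    apply hc.closure_of_subset
    intro z hz
    obtain ⟨p, hp, t, ht, h1, h2⟩ := (le_tent_iff j hT z hz).mp le_rfl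
    simp only [mem_iUnion]
    exact ⟨p, hp, t, ht, h1, mul_nonneg (h01 p hp).1 (ph_nonneg t)⟩

lemma dist_arc {j : ℕ} {a : Pt} {t : ℝ} (ht : t ∈ Icc (1 : ℝ) 2) (h0 : a.x j = 0)
    (hj : j ≠ jj (kap a.n)) : dist a (arc j a t) ≤ 2 * (1 / 2) ^ j := by
  have hpos : (0 : ℝ) ≤ 2 * (1 / 2) ^ j := by positivity
  apply dist_le_of
  · simp [c1, arc]
  · have : (arc j a t).x (jj (kap a.n)) = a.x (jj (kap a.n)) := arc_x_ne _ _ _ (Ne.symm hj)
    have h2 : c2 (arc j a t) = c2 a := by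
      show 10 / s (kap a.n) * ((arc j a t).x (jj (kap a.n)) + sg a * s (kap a.n)) = c2 a
      rw [this]; rfl
    rw [h2]; simp
  · have : c3 (arc j a t) = c3 a := rfl
    rw [this]; simp
  · have : c4 (arc j a t) = c4 a := rfl
    rw [this]; simp
  · have : c5 (arc j a t) = e (kap a.n) • til (arc j a t) := rfl
    rw [this]
    unfold c5
    rw [dist_smul_til, abs_of_pos (e_pos _)]
    have he1 : e (kap a.n) ≤ 1 := by
      unfold e; exact pow_le_one₀ (by norm_num) (by norm_num)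
    have hd : dist (til a) (til (arc j a t)) ≤ 2 * (1 / 2) ^ j := by
      apply dist_til_le hpos
      intro i
      by_cases hi : i = j
      · subst hi
        rw [arc_x_self _ _ ht, h0, zero_sub, abs_neg, abs_of_nonneg (by linarith [ht.1])]
        have : (0 : ℝ) ≤ (1 / 2) ^ i := by positivity
        nlinarith [ht.2]
      · rw [arc_x_ne _ _ _ hi, sub_self, abs_zero, mul_zero]
        exact hpos
    have := e_pos (kap a.n)
    nlinarith [dist_nonneg (x := til a) (y := til (arc j a t))]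

lemma eventually_good (a : Pt) : ∀ᶠ j in atTop, a.x j = 0 ∧ j ≠ jj (kap a.n) := by
  filter_upwards [eventually_gt_atTop (a.x.support.sup id), eventually_gt_atTop (jj (kap a.n))]
    with j h1 h2
  refine ⟨?_, h2.ne'⟩
  by_contra hc
  have : j ∈ a.x.support := Finsupp.mem_support_iff.mpr hc
  have := Finset.le_sup (f := id) this
  simp only [id] at this
  omega

/-- Every normal fuzzy set is approximated by finite sums of tents. -/
lemma approx {u : Pt → ℝ} (hu : Fuzzy u) {r : ℝ} (hr : 0 < r) : ∃ T : Set (Pt × ℝ), T.Finite ∧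
    (∀ p ∈ T, 0 ≤ p.2 ∧ p.2 ≤ 1) ∧ (∃ p ∈ T, p.2 = 1) ∧
    ∀ᶠ j in atTop, dE u (tent j T) < r := by
  set ε : ℝ := r / 4 with hε
  have hε0 : 0 < ε := by positivity
  set S : Set (Pt × ℝ) := {p | ε ≤ p.2 ∧ p.2 ≤ u p.1} with hS
  have hScl : IsClosed S := by
    have h1 : IsClosed {p : Pt × ℝ | ε ≤ p.2} := isClosed_le continuous_const continuous_snd
    exact h1.inter hu.usc.IsClosed_hypograph
  have hSc : IsCompact S := by
    apply (hu.cpt.prod (isCompact_Icc (a := (0 : ℝ)) (b := 1))).of_isClosed_subset hScl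
    rintro p ⟨h1, h2⟩
    exact ⟨subset_closure (lt_of_lt_of_le (hε0.trans_le h1) h2),
      hε0.le.trans h1, h2.trans (hu.le_one _)⟩
  obtain ⟨T0, hT0S, hT0, hcov⟩ := hSc.finite_cover_balls hε0
  obtain ⟨x0, hx0⟩ := hu.normal
  set T : Set (Pt × ℝ) := insert (x0, 1) T0 with hT
  have hTf : T.Finite := hT0.insert _
  have hTu : ∀ p ∈ T, 0 ≤ p.2 ∧ p.2 ≤ 1 ∧ p.2 ≤ u p.1 := by
    rintro p (rfl | hp)
    · exact ⟨by norm_num, le_rfl, hx0.ge⟩
    · obtain ⟨h1, h2⟩ := hT0S hp
      exact ⟨hε0.le.trans h1, h2.trans (hu.le_one _), h2⟩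
  refine ⟨T, hTf, fun p hp => ⟨(hTu p hp).1, (hTu p hp).2.1⟩, ⟨(x0, 1), mem_insert _ _, rfl⟩, ?_⟩
  have hlim : Tendsto (fun j : ℕ => 2 * ((1 : ℝ) / 2) ^ j) atTop (𝓝 0) := by
    have := (tendsto_pow_atTop_nhds_zero_of_lt_one (r := (1 : ℝ) / 2) (by norm_num)
      (by norm_num)).const_mul 2
    simpa using this
  have hall : ∀ᶠ j in atTop, ∀ p ∈ T, p.1.x j = 0 ∧ j ≠ jj (kap p.1.n) :=
    (eventually_all_finite hTf).mpr (fun p _ => eventually_good p.1)
  filter_upwards [hall, hlim.eventually (gt_mem_nhds hε0)] with j hj hsmall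
  have hle : dE u (tent j T) ≤ r / 2 := by
    unfold dE
    apply hausdorffDist_le_of_mem_dist (by positivity)
    · rintro ⟨z, t⟩ ⟨h0, h1, h2⟩
      simp only at h0 h1 h2
      rcases lt_or_ge t ε with ht | ht
      · refine ⟨(z, 0), ⟨le_rfl, by norm_num, tent_nonneg j hTf z⟩, ?_⟩
        rw [Prod.dist_eq]
        simp only [dist_self, Real.dist_eq, sub_zero, abs_of_nonneg h0]
        exact max_le (by positivity) (by linarith)
      · have hz : (z, t) ∈ S := ⟨ht, h2⟩
        have := hcov hz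
        simp only [mem_iUnion] at this
        obtain ⟨p, hp, hd⟩ := this
        have hpT : p ∈ T := mem_insert_of_mem _ hp
        rw [Metric.mem_ball, Prod.dist_eq, max_lt_iff] at hd
        obtain ⟨hd1, hd2⟩ := hd
        simp only at hd1 hd2
        have hps := hT0S hp
        have hpt := hTu p hpT
        refine ⟨(arc j p.1 (3 / 2), p.2), ⟨hpt.1, hpt.2.1, ?_⟩, ?_⟩
        · rw [le_tent_iff j hTf _ (hε0.trans_le hps.1)]
          exact ⟨p, hpT, 3 / 2, ⟨by norm_num, by norm_num⟩, rfl, by rw [ph_mid, mul_one]⟩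
        · rw [Prod.dist_eq]
          have h3 : dist p.1 (arc j p.1 (3 / 2)) ≤ 2 * (1 / 2) ^ j :=
            dist_arc ⟨by norm_num, by norm_num⟩ (hj p hpT).1 (hj p hpT).2
          have h4 := dist_triangle z p.1 (arc j p.1 (3 / 2))
          apply max_le
          · simp only
            linarith
          · simp only
            linarith
    · rintro ⟨z, t⟩ ⟨h0, h1, h2⟩
      simp only at h0 h1 h2
      rcases h0.eq_or_lt with rfl | h0
      · exact ⟨(z, 0), ⟨le_rfl, by norm_num, hu.nonneg z⟩, by rw [dist_self]; positivity⟩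
      · obtain ⟨p, hp, t', ht', hz, hle⟩ := (le_tent_iff j hTf z h0).mp h2
        have hpt := hTu p hp
        have h3 : t ≤ p.2 := by
          refine hle.trans ?_
          have := ph_le_one t'
          nlinarith [hpt.1]
        refine ⟨(p.1, t), ⟨h0.le, h1, h3.trans hpt.2.2⟩, ?_⟩
        rw [Prod.dist_eq]
        have h4 : dist p.1 (arc j p.1 t') ≤ 2 * (1 / 2) ^ j :=
          dist_arc ht' (hj p hp).1 (hj p hp).2
        rw [hz, dist_comm] at h4
        simp only [dist_self]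
        exact max_le (by linarith) (by positivity)
  linarith

/-! ### The iterates of the Zadeh extension -/

lemma le_zadeh_iff (u : Pt → ℝ) (z : Pt) {c : ℝ} (hc : 0 < c) :
    c ≤ zadeh f u z ↔ ∃ y, f y = z ∧ c ≤ u y := by
  unfold zadeh
  constructor
  · intro h
    by_cases hz : ∃ y, f y = z
    · obtain ⟨y, rfl⟩ := hz
      have : {x | f x = f y} = {y} := by
        ext x; simp only [mem_ofPred_eq, mem_singleton_iff]
        exact ⟨fun h => f_injective h, fun h => by rw [h]⟩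
      rw [this, image_singleton, csSup_singleton] at h
      exact ⟨y, rfl, h⟩
    · have : {x | f x = z} = ∅ := by
        ext x; simp only [mem_ofPred_eq, mem_empty_iff_false, iff_false]
        exact fun h => hz ⟨x, h⟩
      rw [this, image_empty, Real.sSup_empty] at h
      linarith
  · rintro ⟨y, rfl, h⟩
    have : {x | f x = f y} = {y} := by
      ext x; simp only [mem_ofPred_eq, mem_singleton_iff]
      exact ⟨fun h => f_injective h, fun h => by rw [h]⟩
    rw [this, image_singleton, csSup_singleton]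
    exact h

lemma zadeh_nonneg {u : Pt → ℝ} (hu : ∀ x, 0 ≤ u x) (z : Pt) : 0 ≤ zadeh f u z := by
  unfold zadeh
  apply Real.sSup_nonneg
  rintro c ⟨x, -, rfl⟩
  exact hu x

lemma iter_nonneg {u : Pt → ℝ} (hu : ∀ x, 0 ≤ u x) (n : ℕ) (z : Pt) :
    0 ≤ (zadeh f)^[n] u z := by
  induction n generalizing u with
  | zero => exact hu z
  | succ n ih => exact ih (zadeh_nonneg hu)

lemma le_iter_iff (u : Pt → ℝ) (n : ℕ) (z : Pt) {c : ℝ} (hc : 0 < c) :
    c ≤ (zadeh f)^[n] u z ↔ ∃ y, f^[n] y = z ∧ c ≤ u y := by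
  induction n generalizing u with
  | zero => simp
  | succ n ih =>
    rw [Function.iterate_succ_apply, ih]
    constructor
    · rintro ⟨x, hx, h⟩
      obtain ⟨y, hy, h2⟩ := (le_zadeh_iff u x hc).mp h
      exact ⟨y, by rw [Function.iterate_succ_apply, hy, hx], h2⟩
    · rintro ⟨y, hy, h⟩
      rw [Function.iterate_succ_apply] at hy
      exact ⟨f y, hy, (le_zadeh_iff u (f y) hc).mpr ⟨y, rfl, h⟩⟩

lemma kap_add {n k : ℕ} (h : n < 2 ^ k) : kap (n + (2 ^ k - 1)) = k := by
  unfold kap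
  have : 0 < 2 ^ k := by positivity
  apply Nat.log_eq_of_pow_le_of_lt_pow
  · omega
  · rw [pow_succ]; omega

lemma dist_iter {j k M : ℕ} (hk : jj k = j) {a b : Pt} (ha : a.n ≤ M) (hb : b.n ≤ M)
    (hM : M < 2 ^ k) {t : ℝ} (ht : t ∈ Icc (1 : ℝ) 2)
    (ht' : t + (sg a - sg b) * s k ∈ Icc (1 : ℝ) 2) :
    dist (f^[2 ^ k - 1] (arc j a t)) (f^[2 ^ k - 1] (arc j b (t + (sg a - sg b) * s k))) ≤
      e k * (M + 2) := by
  have he := e_pos k
  have hs := s_pos k
  set t' := t + (sg a - sg b) * s k with ht'def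
  set P := f^[2 ^ k - 1] (arc j a t) with hP
  set Q := f^[2 ^ k - 1] (arc j b t') with hQ
  have hPn : P.n = a.n + (2 ^ k - 1) := by rw [hP, f_iter]; rfl
  have hQn : Q.n = b.n + (2 ^ k - 1) := by rw [hQ, f_iter]; rfl
  have hPk : kap P.n = k := by rw [hPn]; exact kap_add (lt_of_le_of_lt ha hM)
  have hQk : kap Q.n = k := by rw [hQn]; exact kap_add (lt_of_le_of_lt hb hM)
  have hPx : P.x = (arc j a t).x := by rw [hP, f_iter]
  have hQx : Q.x = (arc j b t').x := by rw [hQ, f_iter]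
  have hPs : sg P = sg a := by rw [hP, f_iter]; rfl
  have hQs : sg Q = sg b := by rw [hQ, f_iter]; rfl
  have hpos : 0 ≤ e k * ((M : ℝ) + 2) := by positivity
  have hsga : 0 ≤ sg a ∧ sg a ≤ 1 := by unfold sg; split_ifs <;> norm_num
  have hsgb : 0 ≤ sg b ∧ sg b ≤ 1 := by unfold sg; split_ifs <;> norm_num
  apply dist_le_of
  · unfold c1; rw [hPk, hQk]; simpa using hpos
  · unfold c2
    rw [hPk, hQk, hPx, hQx, hk, arc_x_self _ _ ht, arc_x_self _ _ ht', hPs, hQs]
    have : 10 / s k * (t + sg a * s k) - 10 / s k * (t' + sg b * s k) = 0 := by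
      rw [ht'def]; ring
    rw [this, abs_zero]; exact hpos
  · unfold c3
    rw [hPk, hQk, hPn, hQn, ← mul_sub, abs_mul, abs_of_pos he]
    apply mul_le_mul_of_nonneg_left _ he.le
    have h1 : (a.n : ℝ) ≤ M := by exact_mod_cast ha
    have h2 : (b.n : ℝ) ≤ M := by exact_mod_cast hb
    have h3 : (0 : ℝ) ≤ a.n := by positivity
    have h4 : (0 : ℝ) ≤ b.n := by positivity
    rw [Nat.cast_add, Nat.cast_add, abs_le]
    constructor <;> linarith
  · unfold c4
    rw [hPk, hQk, hPs, hQs, ← mul_sub, abs_mul, abs_of_pos he]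
    apply mul_le_mul_of_nonneg_left _ he.le
    have h3 : (0 : ℝ) ≤ M := by positivity
    rw [abs_le]
    constructor <;> linarith [hsga.1, hsga.2, hsgb.1, hsgb.2]
  · unfold c5
    rw [hPk, hQk, dist_smul_til, abs_of_pos he]
    apply mul_le_mul_of_nonneg_left _ he.le
    have h3 : (0 : ℝ) ≤ M := by positivity
    linarith [dist_til_two P Q]

lemma half {j k M : ℕ} (hk : jj k = j) {T T' : Set (Pt × ℝ)} (hT : T.Finite) (hT' : T'.Finite)
    (h01 : ∀ p ∈ T, 0 ≤ p.2 ∧ p.2 ≤ 1) (hMT : ∀ p ∈ T, p.1.n ≤ M) {b : Pt × ℝ} (hb : b ∈ T')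
    (hb1 : b.2 = 1) (hbM : b.1.n ≤ M) (hM : M < 2 ^ k) {ρ : ℝ} (h1 : e k * (M + 2) ≤ ρ)
    (h2 : 2 * s k ≤ ρ) :
    ∀ q ∈ endo ((zadeh f)^[2 ^ k - 1] (tent j T)),
      ∃ q' ∈ endo ((zadeh f)^[2 ^ k - 1] (tent j T')), dist q q' ≤ ρ := by
  have hs := s_pos k
  have hρ : 0 ≤ ρ := by linarith
  rintro ⟨z, c⟩ ⟨hc0, hc1, hc⟩
  simp only at hc0 hc1 hc
  have hz0 : (z, (0 : ℝ)) ∈ endo ((zadeh f)^[2 ^ k - 1] (tent j T')) :=
    ⟨le_rfl, by norm_num, iter_nonneg (tent_nonneg j hT') _ z⟩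
  have hzero : c ≤ 2 * s k → ∃ q' ∈ endo ((zadeh f)^[2 ^ k - 1] (tent j T')),
      dist (z, c) q' ≤ ρ := by
    intro h
    refine ⟨(z, 0), hz0, ?_⟩
    rw [Prod.dist_eq]
    simp only [dist_self, Real.dist_eq, sub_zero, abs_of_nonneg hc0]
    exact max_le hρ (by linarith)
  by_cases hcs : c ≤ 2 * s k
  · exact hzero hcs
  push Not at hcs
  have hcpos : 0 < c := by linarith
  obtain ⟨y, hy, hy2⟩ := (le_iter_iff _ _ z hcpos).mp hc
  obtain ⟨p, hp, t, ht, hyt, hcp⟩ := (le_tent_iff j hT y hcpos).mp hy2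
  have hcph : c ≤ ph t := by
    refine hcp.trans ?_
    have := ph_nonneg t
    nlinarith [(h01 p hp).2]
  set t' := t + (sg p.1 - sg b.1) * s k with ht'def
  have hsga : 0 ≤ sg p.1 ∧ sg p.1 ≤ 1 := by unfold sg; split_ifs <;> norm_num
  have hsgb : 0 ≤ sg b.1 ∧ sg b.1 ≤ 1 := by unfold sg; split_ifs <;> norm_num
  have htt : |t - t'| ≤ s k := by
    rw [ht'def, show t - (t + (sg p.1 - sg b.1) * s k) = -((sg p.1 - sg b.1) * s k) by ring,
      abs_neg, abs_mul, abs_of_pos hs]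
    have : |sg p.1 - sg b.1| ≤ 1 := by
      rw [abs_le]; constructor <;> linarith [hsga.1, hsga.2, hsgb.1, hsgb.2]
    nlinarith
  have hph := ph_lip t t'
  have hph' : 0 < ph t' := by linarith
  have ht' : t' ∈ Icc (1 : ℝ) 2 := by
    by_contra hcon
    have : t' ≤ 1 ∨ 2 ≤ t' := by
      by_contra h
      push Not at h
      exact hcon ⟨h.1.le, h.2.le⟩
    rw [ph_small this] at hph'
    exact lt_irrefl _ hph'
  have hmin : 0 < min c (ph t') := lt_min hcpos hph'
  refine ⟨(f^[2 ^ k - 1] (arc j b.1 t'), min c (ph t')), ⟨hmin.le,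
    (min_le_left _ _).trans hc1, ?_⟩, ?_⟩
  · rw [le_iter_iff _ _ _ hmin]
    refine ⟨arc j b.1 t', rfl, ?_⟩
    rw [le_tent_iff j hT' _ hmin]
    exact ⟨b, hb, t', ht', rfl, by rw [hb1, one_mul]; exact min_le_right _ _⟩
  · rw [Prod.dist_eq]
    apply max_le
    · simp only
      rw [← hy, ← hyt]
      exact (dist_iter hk (hMT p hp) hbM hM ht ht').trans h1
    · simp only [Real.dist_eq]
      rw [abs_of_nonneg (by linarith [min_le_left c (ph t')])]
      have : c - 2 * s k ≤ min c (ph t') := le_min (by linarith) (by linarith)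
      linarith

lemma proximal {j : ℕ} {T T' : Set (Pt × ℝ)} (hT : T.Finite) (hT' : T'.Finite)
    (h01 : ∀ p ∈ T, 0 ≤ p.2 ∧ p.2 ≤ 1) (h01' : ∀ p ∈ T', 0 ≤ p.2 ∧ p.2 ≤ 1)
    (h1 : ∃ p ∈ T, p.2 = 1) (h1' : ∃ p ∈ T', p.2 = 1) :
    ∀ η : ℝ, 0 < η → ∀ N : ℕ, ∃ n ≥ N,
      dE ((zadeh f)^[n] (tent j T)) ((zadeh f)^[n] (tent j T')) < η := by
  intro η hη N
  obtain ⟨b, hb, hb1⟩ := h1
  obtain ⟨b', hb', hb1'⟩ := h1'
  obtain ⟨M, hM⟩ := ((hT.union hT').image (fun p : Pt × ℝ => p.1.n)).bddAbove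
  have hMT : ∀ p ∈ T, p.1.n ≤ M := fun p hp => hM ⟨p, Or.inl hp, rfl⟩
  have hMT' : ∀ p ∈ T', p.1.n ≤ M := fun p hp => hM ⟨p, Or.inr hp, rfl⟩
  have hl1 : Tendsto (fun k : ℕ => e k * ((M : ℝ) + 2)) atTop (𝓝 0) := by
    have := (tendsto_pow_atTop_nhds_zero_of_lt_one (r := (1 : ℝ) / 4) (by norm_num)
      (by norm_num)).mul_const ((M : ℝ) + 2)
    simpa [e] using this
  have hl2 : Tendsto (fun k : ℕ => 2 * s k) atTop (𝓝 0) := by
    have h := (tendsto_pow_atTop_nhds_zero_of_lt_one (r := (1 : ℝ) / 2) (by norm_num)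
      (by norm_num))
    have := ((tendsto_add_atTop_iff_nat 1).mpr h).const_mul 2
    simpa [s] using this
  have hl3 : ∀ᶠ k : ℕ in atTop, M < 2 ^ k ∧ N ≤ 2 ^ k - 1 := by
    filter_upwards [eventually_ge_atTop (M + N + 1)] with k hk
    have : k < 2 ^ k := Nat.lt_two_pow_self
    omega
  obtain ⟨k0, hk0⟩ := ((hl1.eventually (gt_mem_nhds (half_pos hη))).and
    ((hl2.eventually (gt_mem_nhds (half_pos hη))).and hl3)).exists_forall_of_atTop
  obtain ⟨h1, h2, h3, h4⟩ := hk0 (Nat.pair j k0) (Nat.right_le_pair j k0)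
  have hk : jj (Nat.pair j k0) = j := by unfold jj; rw [Nat.unpair_pair]
  refine ⟨2 ^ (Nat.pair j k0) - 1, h4, ?_⟩
  refine lt_of_le_of_lt ?_ (half_lt_self hη)
  unfold dE
  apply hausdorffDist_le_of_mem_dist (half_pos hη).le
  · exact half hk hT hT' h01 hMT hb' hb1' (hMT' _ hb') h3 h1.le h2.le
  · exact half hk hT' hT h01' hMT' hb hb1 (hMT _ hb) h3 h1.le h2.le

theorem denseProximalFuzzy : DenseProximalFuzzy f := by
  intro u v hu hv r hr
  obtain ⟨T, hT, hT01, hT1, hTj⟩ := approx hu hr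
  obtain ⟨T', hT', hT01', hT1', hTj'⟩ := approx hv hr
  obtain ⟨j, hj, hj'⟩ := (hTj.and hTj').exists
  exact ⟨tent j T, tent j T', tent_fuzzy j hT hT01 hT1, tent_fuzzy j hT' hT01' hT1', hj, hj',
    proximal hT hT' hT01 hT01' hT1 hT1'⟩

/-! ### The hyperspace -/

def P0 : Pt := ⟨0, false, 0, fun _ => Or.inl rfl⟩
def P1 : Pt := ⟨0, true, 0, fun _ => Or.inl rfl⟩

lemma near {p q : Pt} (hp : p.n = 0) (h : dist p q < 1 / 2) : q.n = 0 ∧ q.σ = p.σ := by
  have h1 : e (kap p.n) = 1 := by rw [hp]; simp [kap, e]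
  have := slice_eq (p := p) (q := q) (by rw [h1]; linarith)
  exact ⟨this.1 ▸ hp, this.2.symm⟩

/-- If two points of the slices `(0, false)`, `(0, true)` have close images then the coordinates
with the number `j(κ(n))` differ by about `s_κ`. -/
lemma match_coord {p q : Pt} (hp : p.n = 0) (hq : q.n = 0) (hpσ : p.σ = false) (hqσ : q.σ = true)
    (n : ℕ) (h : dist (f^[n] p) (f^[n] q) < 1) :
    |p.x (jj (kap n)) - q.x (jj (kap n)) - s (kap n)| < s (kap n) / 10 := by
  have h2 := (le_dist (f^[n] p) (f^[n] q)).2.1.trans_lt h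
  rw [f_iter, f_iter] at h2
  unfold c2 at h2
  simp only [hp, hq, zero_add] at h2
  have hsp : sg ⟨n, p.σ, p.x, p.hx⟩ = 0 := by unfold sg; simp [hpσ]
  have hsq : sg ⟨n, q.σ, q.x, q.hx⟩ = 1 := by unfold sg; simp [hqσ]
  rw [hsp, hsq] at h2
  have hs := s_pos (kap n)
  rw [← mul_sub, abs_mul, abs_of_pos (by positivity)] at h2
  have h3 : p.x (jj (kap n)) + 0 * s (kap n) - (q.x (jj (kap n)) + 1 * s (kap n)) =
    p.x (jj (kap n)) - q.x (jj (kap n)) - s (kap n) := by ring
  rw [h3, div_mul_eq_mul_div, div_lt_iff₀ hs] at h2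
  linarith

theorem not_denseProximalCompact : ¬ DenseProximalCompact f := by
  intro hD
  obtain ⟨K, L, hK, hKne, hL, hLne, hKd, hLd, hprox⟩ := hD {P0} {P1} isCompact_singleton
    (singleton_nonempty _) isCompact_singleton (singleton_nonempty _) (1 / 2) (by norm_num)
  have hKs : ∀ x ∈ K, x.n = 0 ∧ x.σ = false := by
    intro x hx
    obtain ⟨y, hy, hd⟩ := exists_dist_lt_of_hausdorffDist_lt' hx hKd
      (hausdorffEDist_ne_top_of_nonempty_of_bounded (singleton_nonempty _) hKne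
        isCompact_singleton.isBounded hK.isBounded)
    rw [mem_singleton_iff] at hy
    subst hy
    exact near rfl hd
  have hLs : ∀ x ∈ L, x.n = 0 ∧ x.σ = true := by
    intro x hx
    obtain ⟨y, hy, hd⟩ := exists_dist_lt_of_hausdorffDist_lt' hx hLd
      (hausdorffEDist_ne_top_of_nonempty_of_bounded (singleton_nonempty _) hLne
        isCompact_singleton.isBounded hL.isBounded)
    rw [mem_singleton_iff] at hy
    subst hy
    exact near rfl hd
  -- the infima of the coordinates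
  set A : ℕ → ℝ := fun j => sInf ((fun p : Pt => p.x j) '' K) with hA
  set B : ℕ → ℝ := fun j => sInf ((fun p : Pt => p.x j) '' L) with hB
  have hAle : ∀ j, ∀ x ∈ K, A j ≤ x.x j := fun j x hx =>
    csInf_le ⟨0, by rintro _ ⟨y, -, rfl⟩; exact y.nonneg j⟩ ⟨x, hx, rfl⟩
  have hBle : ∀ j, ∀ x ∈ L, B j ≤ x.x j := fun j x hx =>
    csInf_le ⟨0, by rintro _ ⟨y, -, rfl⟩; exact y.nonneg j⟩ ⟨x, hx, rfl⟩
  obtain ⟨x0, hx0⟩ := hKne
  -- a positive lower bound for the positive differences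
  obtain ⟨δ, hδ0, hδ⟩ : ∃ δ : ℝ, 0 < δ ∧ ∀ j ∈ x0.x.support, 0 < A j - B j → δ ≤ A j - B j := by
    have hfin : ((x0.x.support : Set ℕ) ∩ {j | 0 < A j - B j}).Finite :=
      x0.x.support.finite_toSet.inter_of_left _
    rcases (((x0.x.support : Set ℕ) ∩ {j | 0 < A j - B j})).eq_empty_or_nonempty with he | hne
    · refine ⟨1, one_pos, fun j hj hpos => ?_⟩
      exfalso
      have : j ∈ ((x0.x.support : Set ℕ) ∩ {j | 0 < A j - B j}) := ⟨hj, hpos⟩
      rw [he] at this
      exact this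
    · obtain ⟨j0, hj0, hmin⟩ := hfin.exists_minimalFor (fun j => A j - B j) _ hne
      refine ⟨A j0 - B j0, hj0.2, fun j hj hpos => ?_⟩
      by_contra hc
      push Not at hc
      exact absurd (hmin ⟨hj, hpos⟩ hc.le) (not_le.mpr hc)
  have hl2 : Tendsto (fun k : ℕ => 2 * s k) atTop (𝓝 0) := by
    have h := (tendsto_pow_atTop_nhds_zero_of_lt_one (r := (1 : ℝ) / 2) (by norm_num)
      (by norm_num))
    have := ((tendsto_add_atTop_iff_nat 1).mpr h).const_mul 2
    simpa [s] using this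
  obtain ⟨k0, hk0⟩ := (hl2.eventually (gt_mem_nhds hδ0)).exists_forall_of_atTop
  obtain ⟨n, hn, hd⟩ := hprox 1 one_pos (2 ^ k0)
  rw [← Set.image_iterate_eq] at hd
  have hkn : k0 ≤ kap n := by
    unfold kap
    exact Nat.le_log_of_pow_le (by norm_num) (by omega)
  set k := kap n with hk
  have hfc : Continuous f^[n] := f_continuous.iterate n
  have hfin : hausdorffEDist (f^[n] '' K) (f^[n] '' L) ≠ ⊤ :=
    hausdorffEDist_ne_top_of_nonempty_of_bounded (Nonempty.image _ ⟨x0, hx0⟩) (hLne.image _)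
      (hK.image hfc).isBounded (hL.image hfc).isBounded
  have hm1 : ∀ x ∈ K, ∃ y ∈ L, |x.x (jj k) - y.x (jj k) - s k| < s k / 10 := by
    intro x hx
    obtain ⟨y', ⟨y, hy, rfl⟩, hxy⟩ := exists_dist_lt_of_hausdorffDist_lt (mem_image_of_mem _ hx)
      hd hfin
    exact ⟨y, hy, match_coord (hKs x hx).1 (hLs y hy).1 (hKs x hx).2 (hLs y hy).2 n hxy⟩
  have hm2 : ∀ y ∈ L, ∃ x ∈ K, |x.x (jj k) - y.x (jj k) - s k| < s k / 10 := by
    intro y hy
    obtain ⟨x', ⟨x, hx, rfl⟩, hxy⟩ := exists_dist_lt_of_hausdorffDist_lt' (mem_image_of_mem _ hy)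
      hd hfin
    exact ⟨x, hx, match_coord (hKs x hx).1 (hLs y hy).1 (hKs x hx).2 (hLs y hy).2 n hxy⟩
  have hs := s_pos k
  have hs2 := s_le k
  -- the coordinate is nonzero
  have hsupp : jj k ∈ x0.x.support := by
    rw [Finsupp.mem_support_iff]
    intro h0
    obtain ⟨y, hy, hxy⟩ := hm1 x0 hx0
    rw [h0, abs_lt] at hxy
    rcases y.hx (jj k) with h | h
    · rw [h] at hxy; linarith [hxy.1]
    · linarith [hxy.1, h.1]
  have hD1 : B (jj k) + 9 / 10 * s k ≤ A (jj k) := by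
    apply le_csInf (Nonempty.image _ ⟨x0, hx0⟩)
    rintro _ ⟨x, hx, rfl⟩
    obtain ⟨y, hy, hxy⟩ := hm1 x hx
    rw [abs_lt] at hxy
    have := hBle (jj k) y hy
    simp only
    linarith [hxy.1]
  have hD2 : A (jj k) - 11 / 10 * s k ≤ B (jj k) := by
    obtain ⟨y0, hy0⟩ := hLne
    apply le_csInf (Nonempty.image _ ⟨y0, hy0⟩)
    rintro _ ⟨y, hy, rfl⟩
    obtain ⟨x, hx, hxy⟩ := hm2 y hy
    rw [abs_lt] at hxy
    have := hAle (jj k) x hx
    simp only
    linarith [hxy.2]
  have h1 := hδ (jj k) hsupp (by linarith)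
  have h2 := hk0 k hkn
  linarith

end

/-- **Dense proximality does not pass from the endograph fuzzy extension to the hyperspace.**
There are a metric space `X` and a continuous injective map `g : X → X` such that the Zadeh
extension of `g` has a dense proximal relation on the normal fuzzy sets of `X` with the endograph
metric, and the map `K ↦ g(K)` does not have a dense proximal relation on the nonempty compact
subsets of `X` with the Hausdorff metric. -/
theorem result : ∃ (X : Type) (_ : MetricSpace X) (g : X → X), Continuous g ∧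
    Function.Injective g ∧ DenseProximalFuzzy g ∧ ¬ DenseProximalCompact g :=
  ⟨Pt, inferInstance, f, f_continuous, f_injective, denseProximalFuzzy, not_denseProximalCompact⟩

end Pool.Agent.Results.MP_24ecc9_an.EndographProximal
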